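import Pool.Agent.Helper20_TWS.Stmts

/-! W_surface: module GAP (compatibility depends only on the order of the gaps) -/

set_option autoImplicit false

namespace Pool.Agent.TWS.H19

open Pool.Agent.TOR Pool.Agent.TOR.H58 Pool.Agent.TWS

theorem co_gap {α : Type} [DecidableEq α] (R : H59.Rib α) {i j i' j' : ℕ} (h : i < j)
    (h' : i' < j') (a b c : FreeGroup α) :
    (H59.co R (a, i) (b, j) (c, i) ↔ H59.co R (a, i') (b, j') (c, i')) ∧
    (H59.co R (a, i) (b, j) (c, j) ↔ H59.co R (a, i') (b, j') (c, j')) ∧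
    (H59.co R (a, i) (b, i) (c, j) ↔ H59.co R (a, i') (b, i') (c, j')) ∧
    (H59.co R (a, j) (b, i) (c, i) ↔ H59.co R (a, j') (b, i') (c, i')) ∧
    (H59.co R (a, j) (b, i) (c, j) ↔ H59.co R (a, j') (b, i') (c, j')) ∧
    (H59.co R (a, j) (b, j) (c, i) ↔ H59.co R (a, j') (b, j') (c, i')) := by
  have h1 : ¬ j < i := by omega
  have h2 : ¬ j' < i' := by omega
  simp only [H59.co_iff, h, h', h1, h2, lt_irrefl]
  tauto

theorem gap : GapS := by
  intro n i j i' j' k m h h'
  unfold H59.Cmp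
  refine forall_congr' fun g => not_congr ?_
  rw [H59.lo_def, H59.lo_def]
  have e1 := (co_gap (H59.sR n) h h' 1 g k).1
  have e2 := (co_gap (H59.sR n) h h' 1 (g * m) k).1
  have e3 := (co_gap (H59.sR n) h h' k (g * m) 1).1
  have e4 := (co_gap (H59.sR n) h h' k g 1).1
  rw [e1, e2, e3, e4]

end Pool.Agent.TWS.H19
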